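import Pool.Agent.KS6_84.Lp.Main

/-!
# MP_bbed2d_pr: the diameter bound fails by the factor `|I|`, for all small `ε`, for every `p > 2`
-/

set_option autoImplicit false

open scoped ENNReal
open R984.LpRelax KS6_84.Lp

namespace Pool.Agent.Results.MP_bbed2d_pr.SharpFailure

/-- Let `p > 2`.  The bound of Q1 fails for every constant `C`.  Moreover, for every `n ≥ 2` there
are a connected graph `G` with `2 n + 5` vertices, at most `3 (n + 2)` edges and diameter at most
`4`, an interior `I` with `n` vertices and one initial profile `f₀ : V → [0, 1]` such that for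
**every** `ε ≤ (n + 1)^{-(7 + 4/(p-2))}`
`E[τ_p(ε)] ≥ (n³ / 88) log (|V| / ε)`, hence
`E[τ_p(ε)] ≥ (n / 2112) · |I| · |E| · Diam(G) · log (|V| / ε)`. -/
theorem result (p : ℝ) (hp : 2 < p) :
    (∀ C : ℝ, ¬ DiamBound p C) ∧
    ∀ n : ℕ, 2 ≤ n →
      ∃ (V : Type) (_ : Fintype V) (G : SimpleGraph V) (I : Finset V) (_ : Nonempty I)
        (f₀ h : V → ℝ),
        G.Connected ∧ (∃ v, v ∉ I) ∧ (∀ v, 0 ≤ f₀ v ∧ f₀ v ≤ 1) ∧
        IsPHarmonicExt G p I f₀ h ∧
        Fintype.card V = 2 * n + 5 ∧ I.card = n ∧ G.edgeSet.ncard ≤ 3 * (n + 2) ∧ G.diam ≤ 4 ∧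
        ∀ ε : ℝ, 0 < ε → ε ≤ ((n : ℝ) + 1) ^ (-(7 + 4 / (p - 2))) →
          ENNReal.ofReal ((n : ℝ) ^ 3 / 88 * Real.log (Fintype.card V / ε)) ≤
            expTau G p I f₀ h ε ∧
          ENNReal.ofReal ((n : ℝ) / 2112 *
            (I.card * G.edgeSet.ncard * G.diam * Real.log (Fintype.card V / ε))) ≤
            expTau G p I f₀ h ε := by
  classical
  have hedge : ∀ n, ((Gr n).edgeSet.ncard : ℝ) ≤ 3 * ((n : ℝ) + 2) := by
    intro n
    have h1 := gr_edges n
    have h2 : (Gr n).edgeSet.ncard = (Gr n).edgeFinset.card := by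
      rw [Set.ncard_eq_toFinset_card', SimpleGraph.edgeFinset]
    rw [h2]
    exact_mod_cast h1
  have hdiam : ∀ n, ((Gr n).diam : ℝ) ≤ 4 := fun n => by exact_mod_cast gr_diam n
  have hprod : ∀ n : ℕ, 2 ≤ n → ((Gr n).edgeSet.ncard : ℝ) * (Gr n).diam ≤ 24 * n := by
    intro n hn
    have hn2 : (2:ℝ) ≤ n := by exact_mod_cast hn
    calc ((Gr n).edgeSet.ncard : ℝ) * (Gr n).diam ≤ (3 * ((n : ℝ) + 2)) * 4 :=
          mul_le_mul (hedge n) (hdiam n) (by positivity) (by positivity)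
      _ ≤ 24 * n := by linarith
  refine ⟨?_, ?_⟩
  · intro C hC
    obtain ⟨n, hn⟩ := exists_nat_ge (max (2112 * |C| + 1) 2)
    have hn2' : (2:ℝ) ≤ n := (le_max_right _ _).trans hn
    have hn2 : 2 ≤ n := by exact_mod_cast hn2'
    have hnC : 2112 * |C| + 1 ≤ (n : ℝ) := (le_max_left _ _).trans hn
    obtain ⟨hne, f₀, h, hex, hf01, hharm, hall⟩ := construction p hp n hn2
    have hε : 0 < ((n : ℝ) + 1) ^ (-(7 + 4 / (p - 2))) := by positivity
    obtain ⟨h1, h2, h3⟩ := hall _ hε le_rfl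
    have h4 := hC (Vx n) (Gr n) (Int n) f₀ h _ (gr_connected n) hex hf01 hharm hε h1
    have h5 := h3.trans h4
    set L := Real.log (Fintype.card (Vx n) / ((n : ℝ) + 1) ^ (-(7 + 4 / (p - 2)))) with hL
    have h6 : C * ((Int n).card * (Gr n).edgeSet.ncard * (Gr n).diam * L) ≤
        |C| * (24 * n ^ 2 * L) := by
      rw [card_Int]
      calc C * ((n : ℝ) * (Gr n).edgeSet.ncard * (Gr n).diam * L)
          ≤ |C| * ((n : ℝ) * (Gr n).edgeSet.ncard * (Gr n).diam * L) :=
            mul_le_mul_of_nonneg_right (le_abs_self C) (by positivity)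
        _ = |C| * (n * (((Gr n).edgeSet.ncard : ℝ) * (Gr n).diam) * L) := by ring
        _ ≤ |C| * (n * (24 * n) * L) := by
            have := hprod n hn2
            gcongr
        _ = |C| * (24 * n ^ 2 * L) := by ring
    have h7 : |C| * (24 * (n : ℝ) ^ 2 * L) < (n : ℝ) ^ 3 / 88 * L := by
      have h8 : 0 < (n : ℝ) ^ 2 * L := by positivity
      have h9 : |C| * 24 < (n : ℝ) / 88 := by linarith
      have h10 := mul_lt_mul_of_pos_right h9 h8
      calc |C| * (24 * (n : ℝ) ^ 2 * L) = |C| * 24 * ((n : ℝ) ^ 2 * L) := by ring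
        _ < (n : ℝ) / 88 * ((n : ℝ) ^ 2 * L) := h10
        _ = (n : ℝ) ^ 3 / 88 * L := by ring
    have h11 : ENNReal.ofReal (C * ((Int n).card * (Gr n).edgeSet.ncard * (Gr n).diam * L)) <
        ENNReal.ofReal ((n : ℝ) ^ 3 / 88 * L) := by
      rw [ENNReal.ofReal_lt_ofReal_iff (by positivity)]
      exact lt_of_le_of_lt h6 h7
    exact absurd h5 (not_le.mpr h11)
  · intro n hn
    have hn2' : (2:ℝ) ≤ n := by exact_mod_cast hn
    obtain ⟨hne, f₀, h, hex, hf01, hharm, hall⟩ := construction p hp n hn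
    refine ⟨Vx n, inferInstance, Gr n, Int n, hne, f₀, h, gr_connected n, hex, hf01, hharm,
      card_Vx n, card_Int n, by exact_mod_cast hedge n, gr_diam n, ?_⟩
    intro ε hε hεle
    obtain ⟨h1, h2, h3⟩ := hall ε hε hεle
    refine ⟨h3, le_trans (ENNReal.ofReal_le_ofReal ?_) h3⟩
    rw [card_Int]
    calc (n : ℝ) / 2112 * ((n : ℝ) * (Gr n).edgeSet.ncard * (Gr n).diam *
          Real.log (Fintype.card (Vx n) / ε))
        = (n : ℝ) / 2112 * (n * (((Gr n).edgeSet.ncard : ℝ) * (Gr n).diam) *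
          Real.log (Fintype.card (Vx n) / ε)) := by ring
      _ ≤ (n : ℝ) / 2112 * (n * (24 * n) * Real.log (Fintype.card (Vx n) / ε)) := by
          have := hprod n hn
          gcongr
      _ = (n : ℝ) ^ 3 / 88 * Real.log (Fintype.card (Vx n) / ε) := by ring

end Pool.Agent.Results.MP_bbed2d_pr.SharpFailure
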